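import Pool.Agent.FUR.Stmts

/-!
Squad FUR, row FLS: `QPar n` is false.
-/

set_option autoImplicit false

open Finset

namespace Pool.Agent.FUR.H88

open Pool.Agent.FUR

theorem qval_exists (M : (ℕ → Bool) → Prop) (p : List Bool) : ∀ (m i : ℕ) (σ : ℕ → Bool),
    QVal M (List.replicate m false ++ p) i σ →
    ∃ σ' : ℕ → Bool, (∀ v, v < i ∨ i + m ≤ v → σ' v = σ v) ∧ QVal M p (i + m) σ' := by
  intro m
  induction m with
  | zero =>
    intro i σ h
    exact ⟨σ, fun v _ => rfl, h⟩
  | succ m ih =>
    intro i σ h
    have h1 : QVal M (false :: (List.replicate m false ++ p)) i σ := h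
    obtain ⟨b, hb⟩ : ∃ b : Bool, QVal M (List.replicate m false ++ p) (i + 1)
      (Function.update σ i b) := h1
    obtain ⟨σ', h2, h3⟩ := ih (i + 1) _ hb
    have h4 : i + 1 + m = i + (m + 1) := by omega
    rw [h4] at h2 h3
    refine ⟨σ', fun v hv => ?_, h3⟩
    rw [h2 v (by omega), Function.update_of_ne (by omega)]

theorem px_congr (σ σ' : ℕ → Bool) : ∀ n : ℕ, (∀ v < n, σ v = σ' v) → px σ n = px σ' n := by
  intro n
  induction n with
  | zero => intro _; rfl
  | succ n ih =>
    intro h
    show xor (px σ n) (σ n) = xor (px σ' n) (σ' n)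
    rw [ih fun v hv => h v (by omega), h n (by omega)]

theorem two_clause {σ : ℕ → Bool} {a b : ℕ} {s t : Bool}
    (h : (clF [(a, s), (b, t)]).eval σ = true) : σ a = s ∨ σ b = t := by
  have h1 : ((litF (a, s)).eval σ || (litF (b, t)).eval σ) = true := h
  have h2 : ∀ (a : ℕ) (s : Bool), (litF (a, s)).eval σ = true → σ a = s := by
    intro a s hs
    cases s with
    | true => exact hs
    | false =>
      have h3 : (!(σ a)) = true := hs
      cases h4 : σ a with
      | true => rw [h4] at h3; exact absurd h3 (by decide)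
      | false => rfl
  rcases Bool.or_eq_true_iff.mp h1 with h3 | h3
  · exact Or.inl (h2 a s h3)
  · exact Or.inr (h2 b t h3)

theorem three_clause {σ : ℕ → Bool} {a b c : ℕ} {s t u : Bool}
    (h : (clF [(a, s), (b, t), (c, u)]).eval σ = true) : σ a = s ∨ σ b = t ∨ σ c = u := by
  have h1 : ((litF (a, s)).eval σ || (clF [(b, t), (c, u)]).eval σ) = true := h
  rcases Bool.or_eq_true_iff.mp h1 with h3 | h3
  · left
    have h4 : (clF [(a, s), (a, s)]).eval σ = true := by
      show ((litF (a, s)).eval σ || (litF (a, s)).eval σ) = true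
      rw [h3]
      rfl
    rcases two_clause h4 with h5 | h5 <;> exact h5
  · exact Or.inr (two_clause h3)

theorem matrix_facts (n : ℕ) (hn : 1 ≤ n) (σ : ℕ → Bool)
    (h : ∀ c ∈ (QPar n).mat, (clF c).eval σ = true) : σ n ≠ px σ n := by
  have hmem : ∀ c, c ∈ (QPar n).mat ↔ (c ∈ [[(n + 1, false), (0, true)], [(n + 1, true), (0, false)]] ∨
      c ∈ ((List.range (n - 1)).flatMap fun i => xorC (n + 1 + (i + 1)) (n + 1 + i) (i + 1))) ∨
      c ∈ [[(n, true), (2 * n, true)], [(n, false), (2 * n, false)]] := by
    intro c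
    show c ∈ _ ++ _ ++ _ ↔ _
    rw [List.mem_append, List.mem_append]
  have h0 : σ (n + 1) = σ 0 := by
    have h1 := two_clause (h [(n + 1, false), (0, true)] ((hmem _).mpr (Or.inl (Or.inl (by simp)))))
    have h2 := two_clause (h [(n + 1, true), (0, false)] ((hmem _).mpr (Or.inl (Or.inl (by simp)))))
    cases h3 : σ (n + 1) <;> cases h4 : σ 0 <;> simp_all
  have hstep : ∀ i, i + 1 < n → σ (n + 1 + (i + 1)) = xor (σ (n + 1 + i)) (σ (i + 1)) := by
    intro i hi
    have hm : ∀ c ∈ xorC (n + 1 + (i + 1)) (n + 1 + i) (i + 1), (clF c).eval σ = true := by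
      intro c hc
      apply h
      rw [hmem]
      refine Or.inl (Or.inr ?_)
      rw [List.mem_flatMap]
      exact ⟨i, List.mem_range.mpr (by omega), hc⟩
    have h1 := three_clause (hm [(n + 1 + (i + 1), false), (n + 1 + i, true), (i + 1, true)]
      (by simp [xorC]))
    have h2 := three_clause (hm [(n + 1 + (i + 1), false), (n + 1 + i, false), (i + 1, false)]
      (by simp [xorC]))
    have h3 := three_clause (hm [(n + 1 + (i + 1), true), (n + 1 + i, false), (i + 1, true)]
      (by simp [xorC]))
    have h4 := three_clause (hm [(n + 1 + (i + 1), true), (n + 1 + i, true), (i + 1, false)]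
      (by simp [xorC]))
    generalize σ (n + 1 + (i + 1)) = a at *
    generalize σ (n + 1 + i) = b at *
    generalize σ (i + 1) = c at *
    cases a <;> cases b <;> cases c <;> simp_all
  have hpx : ∀ i, i < n → σ (n + 1 + i) = px σ (i + 1) := by
    intro i
    induction i with
    | zero =>
      intro _
      show σ (n + 1) = xor false (σ 0)
      rw [h0]
      cases σ 0 <;> rfl
    | succ i ih =>
      intro hi
      rw [hstep i hi, ih (by omega)]
      rfl
  have hl := hpx (n - 1) (by omega)
  have e1 : n + 1 + (n - 1) = 2 * n := by omega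
  have e2 : n - 1 + 1 = n := by omega
  rw [e1, e2] at hl
  have h1 := two_clause (h [(n, true), (2 * n, true)] ((hmem _).mpr (Or.inr (by simp))))
  have h2 := two_clause (h [(n, false), (2 * n, false)] ((hmem _).mpr (Or.inr (by simp))))
  rw [hl] at h1 h2
  generalize σ n = a at *
  generalize px σ n = b at *
  cases a <;> cases b <;> simp_all

theorem fls : FLSStmt := by
  intro n hn hT
  obtain ⟨σ₁, -, h2⟩ := qval_exists _ (true :: List.replicate n false) n 0 _ hT
  rw [zero_add] at h2
  have h3 : ∀ b : Bool, QVal (fun σ => ∀ c ∈ (QPar n).mat, (clF c).eval σ = true)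
    (List.replicate n false) (n + 1) (Function.update σ₁ n b) := h2
  have h4 := h3 (px σ₁ n)
  rw [← List.append_nil (List.replicate n false)] at h4
  obtain ⟨σ, h5, h6⟩ := qval_exists _ [] n (n + 1) _ h4
  have h7 := matrix_facts n hn σ h6
  apply h7
  rw [h5 n (by omega), Function.update_self]
  apply px_congr
  intro v hv
  rw [h5 v (by omega), Function.update_of_ne (by omega)]

end Pool.Agent.FUR.H88
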