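import Pool.Agent.FUR.Stmts

/-!
Squad FUR, row PFM: formulas in `∧, ∨, ¬` as De Morgan formulas.
-/

set_option autoImplicit false

open Finset

namespace Pool.Agent.FUR.H88

open Pool.Agent.FUR

theorem pfm_aux (n : ℕ) (b : Bool) (φ : PF) : ∀ c : Bool, ∃ F : Fm (Fin n),
    (∀ x, F.ev x = xor c (φ.eval (asg x b))) ∧ F.lv ≤ φ.size := by
  induction φ with
  | cst d =>
    intro c
    exact ⟨Fm.cst (xor c d), fun x => rfl, Nat.zero_le _⟩
  | var v =>
    intro c
    by_cases hv : v < n
    · refine ⟨Fm.lit ⟨v, hv⟩ (!c), fun x => ?_, le_refl _⟩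
      show (x ⟨v, hv⟩ == !c) = xor c (asg x b v)
      unfold asg
      rw [dif_pos hv]
      cases x ⟨v, hv⟩ <;> cases c <;> rfl
    · refine ⟨Fm.cst (xor c (if v = n then b else false)), fun x => ?_, Nat.zero_le _⟩
      show xor c (if v = n then b else false) = xor c (asg x b v)
      unfold asg
      rw [dif_neg hv]
  | neg φ ih =>
    intro c
    obtain ⟨F, h1, h2⟩ := ih (!c)
    refine ⟨F, fun x => ?_, h2.trans (Nat.le_succ _)⟩
    rw [h1 x]
    show xor (!c) (φ.eval (asg x b)) = xor c (!(φ.eval (asg x b)))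
    cases c <;> cases φ.eval (asg x b) <;> rfl
  | and φ ψ ihφ ihψ =>
    intro c
    obtain ⟨F, h1, h2⟩ := ihφ c
    obtain ⟨G, h3, h4⟩ := ihψ c
    cases c with
    | false =>
      refine ⟨Fm.and F G, fun x => ?_, ?_⟩
      · show (F.ev x && G.ev x) = xor false (φ.eval (asg x b) && ψ.eval (asg x b))
        rw [h1 x, h3 x]
        cases φ.eval (asg x b) <;> cases ψ.eval (asg x b) <;> rfl
      · show F.lv + G.lv ≤ φ.size + ψ.size + 1
        omega
    | true =>
      refine ⟨Fm.or F G, fun x => ?_, ?_⟩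
      · show (F.ev x || G.ev x) = xor true (φ.eval (asg x b) && ψ.eval (asg x b))
        rw [h1 x, h3 x]
        cases φ.eval (asg x b) <;> cases ψ.eval (asg x b) <;> rfl
      · show F.lv + G.lv ≤ φ.size + ψ.size + 1
        omega
  | or φ ψ ihφ ihψ =>
    intro c
    obtain ⟨F, h1, h2⟩ := ihφ c
    obtain ⟨G, h3, h4⟩ := ihψ c
    cases c with
    | false =>
      refine ⟨Fm.or F G, fun x => ?_, ?_⟩
      · show (F.ev x || G.ev x) = xor false (φ.eval (asg x b) || ψ.eval (asg x b))
        rw [h1 x, h3 x]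
        cases φ.eval (asg x b) <;> cases ψ.eval (asg x b) <;> rfl
      · show F.lv + G.lv ≤ φ.size + ψ.size + 1
        omega
    | true =>
      refine ⟨Fm.and F G, fun x => ?_, ?_⟩
      · show (F.ev x && G.ev x) = xor true (φ.eval (asg x b) || ψ.eval (asg x b))
        rw [h1 x, h3 x]
        cases φ.eval (asg x b) <;> cases ψ.eval (asg x b) <;> rfl
      · show F.lv + G.lv ≤ φ.size + ψ.size + 1
        omega

theorem pfm : PFMStmt := by
  intro n φ b
  obtain ⟨F, h1, h2⟩ := pfm_aux n b φ false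
  refine ⟨F, fun x => ?_, h2⟩
  rw [h1 x]
  show xor false (φ.eval (asg x b)) = φ.eval (asg x b)
  cases φ.eval (asg x b) <;> rfl

end Pool.Agent.FUR.H88
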